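import Pool.Agent.Full.Topo

/-!
# Duality for closed sets in the unit square

Either a connected subset of the closed set `O` joins the left side of the square to the right side,
or a path in the complement of `O` joins the lower side to the upper side.
-/

set_option autoImplicit false

open Set Filter Topology Complex

namespace Full

/-- a compact set none of whose connected subsets meets both `A` and `B` is split by a partition
into two closed sets which separates `A` from `B` -/
lemma split_compact {X A B : Set ℂ} (hX : IsCompact X) (hA : IsClosed A) (hB : IsClosed B)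
    (h : ∀ K, K ⊆ X → IsPreconnected K → (K ∩ A).Nonempty → (K ∩ B).Nonempty → False) :
    ∃ X1 X2 : Set ℂ, IsClosed X1 ∧ IsClosed X2 ∧ X1 ∪ X2 = X ∧ X1 ∩ X2 = ∅ ∧ X ∩ A ⊆ X1 ∧
      X ∩ B ⊆ X2 := by
  classical
  have : CompactSpace X := isCompact_iff_compactSpace.1 hX
  set A' : Set X := Subtype.val ⁻¹' A with hA'
  set B' : Set X := Subtype.val ⁻¹' B with hB'
  have cA' : IsClosed A' := hA.preimage continuous_subtype_val
  have cB' : IsClosed B' := hB.preimage continuous_subtype_val
  have key : ∀ x : X, x ∈ A' → ∃ U : Set X, IsClopen U ∧ x ∈ U ∧ B' ∩ U = ∅ := by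
    intro x hx
    have h1 : B' ∩ ⋂ s : { s : Set X // IsClopen s ∧ x ∈ s }, (s : Set X) = ∅ := by
      rw [← connectedComponent_eq_iInter_isClopen x]
      rw [eq_empty_iff_forall_notMem]
      rintro y ⟨hyB, hyC⟩
      refine h (Subtype.val '' connectedComponent x) ?_ ?_ ?_ ?_
      · rintro _ ⟨z, -, rfl⟩; exact z.2
      · exact isPreconnected_connectedComponent.image _ continuous_subtype_val.continuousOn
      · exact ⟨x, ⟨x, mem_connectedComponent, rfl⟩, hx⟩
      · exact ⟨y, ⟨y, hyC, rfl⟩, hyB⟩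
    have : Nonempty { s : Set X // IsClopen s ∧ x ∈ s } := ⟨⟨univ, isClopen_univ, mem_univ _⟩⟩
    obtain ⟨s, hs⟩ := cB'.isCompact.elim_directed_family_closed
      (fun s : { s : Set X // IsClopen s ∧ x ∈ s } => (s : Set X)) (fun s => s.2.1.isClosed) h1
      (by
        intro s t
        exact ⟨⟨s ∩ t, s.2.1.inter t.2.1, s.2.2, t.2.2⟩, inter_subset_left, inter_subset_right⟩)
    exact ⟨s, s.2.1, s.2.2, hs⟩
  choose! U hU1 hU2 hU3 using key
  obtain ⟨t, ht1, ht2⟩ := cA'.isCompact.elim_nhds_subcover U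
    (fun x hx => (hU1 x hx).isOpen.mem_nhds (hU2 x hx))
  set V : Set X := ⋃ x ∈ t, U x with hV
  have cV : IsClopen V := isClopen_biUnion_finset (fun x hx => hU1 x (ht1 x hx))
  have hVB : B' ∩ V = ∅ := by
    rw [eq_empty_iff_forall_notMem]
    rintro y ⟨hy1, hy2⟩
    rw [hV, mem_iUnion₂] at hy2
    obtain ⟨x, hx, hy3⟩ := hy2
    have := hU3 x (ht1 x hx)
    rw [eq_empty_iff_forall_notMem] at this
    exact this y ⟨hy1, hy3⟩
  refine ⟨Subtype.val '' V, Subtype.val '' Vᶜ, ?_, ?_, ?_, ?_, ?_, ?_⟩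
  · exact (cV.isClosed.isCompact.image continuous_subtype_val).isClosed
  · exact (cV.compl.isClosed.isCompact.image continuous_subtype_val).isClosed
  · rw [← image_union, union_compl_self, image_univ, Subtype.range_coe]
  · rw [← image_inter Subtype.val_injective, inter_compl_self, image_empty]
  · rintro x ⟨hx, hxA⟩
    exact ⟨⟨x, hx⟩, ht2 hxA, rfl⟩
  · rintro x ⟨hx, hxB⟩
    refine ⟨⟨x, hx⟩, ?_, rfl⟩
    intro hxV
    rw [eq_empty_iff_forall_notMem] at hVB
    exact hVB ⟨x, hx⟩ ⟨hxB, hxV⟩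

/-- a continuous function which is `0` exactly on `P` and `1` exactly on `Q` -/
lemma exists_sep {P Q : Set ℂ} (hP : IsClosed P) (hQ : IsClosed Q) (hP0 : P.Nonempty)
    (hQ0 : Q.Nonempty) (hd : P ∩ Q = ∅) :
    ∃ φ : ℂ → ℝ, Continuous φ ∧ (∀ w ∈ P, φ w = 0) ∧ (∀ w ∈ Q, φ w = 1) := by
  have hpos : ∀ w, 0 < Metric.infDist w P + Metric.infDist w Q := by
    intro w
    by_contra hle
    push Not at hle
    have h1 := Metric.infDist_nonneg (x := w) (s := P)
    have h2 := Metric.infDist_nonneg (x := w) (s := Q)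
    have h3 : w ∈ P := (hP.mem_iff_infDist_zero hP0).2 (by linarith)
    have h4 : w ∈ Q := (hQ.mem_iff_infDist_zero hQ0).2 (by linarith)
    have : w ∈ P ∩ Q := ⟨h3, h4⟩
    rw [hd] at this
    exact this
  refine ⟨fun w => Metric.infDist w P / (Metric.infDist w P + Metric.infDist w Q), ?_, ?_, ?_⟩
  · exact (Metric.continuous_infDist_pt P).div
      ((Metric.continuous_infDist_pt P).add (Metric.continuous_infDist_pt Q))
      (fun w => (hpos w).ne')
  · intro w hw
    simp [Metric.infDist_zero_of_mem hw]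
  · intro w hw
    have h1 := hpos w
    simp only [Metric.infDist_zero_of_mem hw, add_zero] at h1 ⊢
    exact div_self h1.ne'

lemma isClosed_sqL : IsClosed sqL := by
  have h : sqL = sq ∩ Complex.re ⁻¹' {0} := by ext w; simp [sqL]
  rw [h]
  exact isCompact_sq.isClosed.inter (isClosed_singleton.preimage Complex.continuous_re)

lemma isClosed_sqR : IsClosed sqR := by
  have h : sqR = sq ∩ Complex.re ⁻¹' {1} := by ext w; simp [sqR]
  rw [h]
  exact isCompact_sq.isClosed.inter (isClosed_singleton.preimage Complex.continuous_re)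

lemma isClosed_sqB : IsClosed sqB := by
  have h : sqB = sq ∩ Complex.im ⁻¹' {0} := by ext w; simp [sqB]
  rw [h]
  exact isCompact_sq.isClosed.inter (isClosed_singleton.preimage Complex.continuous_im)

lemma isClosed_sqT : IsClosed sqT := by
  have h : sqT = sq ∩ Complex.im ⁻¹' {1} := by ext w; simp [sqT]
  rw [h]
  exact isCompact_sq.isClosed.inter (isClosed_singleton.preimage Complex.continuous_im)

/-- the clamp: a retraction of the plane onto the unit square -/
noncomputable def clamp (w : ℂ) : ℂ := ⟨max 0 (min 1 w.re), max 0 (min 1 w.im)⟩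

lemma clamp_mem (w : ℂ) : clamp w ∈ sq :=
  ⟨le_max_left _ _, max_le zero_le_one (min_le_left _ _), le_max_left _ _,
    max_le zero_le_one (min_le_left _ _)⟩

lemma clamp_eq {w : ℂ} (hw : w ∈ sq) : clamp w = w := by
  obtain ⟨h1, h2, h3, h4⟩ := hw
  apply Complex.ext
  · simp [clamp, h1, h2]
  · simp [clamp, h3, h4]

lemma continuous_clamp : Continuous clamp := by
  have h : clamp = fun w => Complex.equivRealProdCLM.symm
      (max 0 (min 1 w.re), max 0 (min 1 w.im)) := by
    funext x; rfl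
  rw [h]
  refine Complex.equivRealProdCLM.symm.continuous.comp (Continuous.prodMk ?_ ?_)
  · exact continuous_const.max (continuous_const.min Complex.continuous_re)
  · exact continuous_const.max (continuous_const.min Complex.continuous_im)

/-- a connected subset of the square off the closed set `O` can be replaced by a path -/
lemma joinedIn_of_preconnected {O K : Set ℂ} (hO : IsClosed O) (hK : IsPreconnected K)
    (hKs : K ⊆ sq \ O) {b t : ℂ} (hb : b ∈ K) (ht : t ∈ K) : JoinedIn (sq \ O) b t := by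
  set U : Set ℂ := clamp ⁻¹' Oᶜ with hU
  have oU : IsOpen U := hO.isOpen_compl.preimage continuous_clamp
  have hKU : K ⊆ U := by
    intro x hx
    have := hKs hx
    rw [hU, mem_preimage, clamp_eq this.1]
    exact this.2
  have h1 : K ⊆ connectedComponentIn U b := hK.subset_connectedComponentIn hb hKU
  have h2 : IsPathConnected (connectedComponentIn U b) :=
    (oU.connectedComponentIn).isConnected_iff_isPathConnected.1
      (isConnected_connectedComponentIn_iff.2 (hKU hb))
  obtain ⟨γ, hγ⟩ := h2.joinedIn b (h1 hb) t (h1 ht)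
  have h3 : JoinedIn (sq \ O) (clamp b) (clamp t) := by
    refine ⟨γ.map continuous_clamp, fun s => ?_⟩
    have := connectedComponentIn_subset U b (hγ s)
    exact ⟨clamp_mem _, this⟩
  rwa [clamp_eq (hKs hb).1, clamp_eq (hKs ht).1] at h3

/-- **Duality.** -/
theorem dual_exists {O : Set ℂ} (hO : IsClosed O) :
    (∃ K, K ⊆ O ∩ sq ∧ IsPreconnected K ∧ (K ∩ sqL).Nonempty ∧ (K ∩ sqR).Nonempty) ∨
    (∃ b ∈ sqB, ∃ t ∈ sqT, JoinedIn (sq \ O) b t) := by
  by_contra hcon
  push Not at hcon
  obtain ⟨hno, hno'⟩ := hcon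
  have cX : IsCompact (O ∩ sq) := isCompact_sq.inter_left hO
  obtain ⟨X1, X2, c1, c2, hun, hin, hL, hR⟩ := split_compact cX isClosed_sqL isClosed_sqR
    (fun K hK1 hK2 hK3 hK4 => by
      have := hno K hK1 hK2 hK3
      rw [this] at hK4
      exact not_nonempty_empty hK4)
  have hLR : ∀ w, w ∈ sqL → w ∈ sqR → False := by
    intro w h1 h2
    have := h1.2.symm.trans h2.2
    norm_num at this
  have hBT : ∀ w, w ∈ sqB → w ∈ sqT → False := by
    intro w h1 h2
    have := h1.2.symm.trans h2.2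
    norm_num at this
  have hsub1 : X1 ⊆ O ∩ sq := by rw [← hun]; exact subset_union_left
  have hsub2 : X2 ⊆ O ∩ sq := by rw [← hun]; exact subset_union_right
  have hin' : ∀ w, w ∈ X1 → w ∈ X2 → False := by
    intro w h1 h2
    have : w ∈ X1 ∩ X2 := ⟨h1, h2⟩
    rw [hin] at this
    exact this
  have z0 : (0 : ℂ) ∈ sqL := ⟨⟨by simp, by simp, by simp, by simp⟩, by simp⟩
  have z1 : (1 : ℂ) ∈ sqR := ⟨⟨by simp, by simp, by simp, by simp⟩, by simp⟩
  have z2 : (0 : ℂ) ∈ sqB := ⟨⟨by simp, by simp, by simp, by simp⟩, by simp⟩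
  have z3 : (I : ℂ) ∈ sqT := ⟨⟨by simp, by simp, by simp, by simp⟩, by simp⟩
  obtain ⟨φ, hφc, hφ0, hφ1⟩ := exists_sep (P := X1 ∪ sqL) (Q := X2 ∪ sqR)
    (c1.union isClosed_sqL) (c2.union isClosed_sqR) ⟨0, Or.inr z0⟩ ⟨1, Or.inr z1⟩
    (by
      rw [eq_empty_iff_forall_notMem]
      rintro w ⟨h1 | h1, h2 | h2⟩
      · exact hin' w h1 h2
      · exact hin' w h1 (hR ⟨hsub1 h1, h2⟩)
      · exact hin' w (hL ⟨hsub2 h2, h1⟩) h2
      · exact hLR w h1 h2)
  set F : Set ℂ := sq ∩ φ ⁻¹' (Icc (1 / 3) (2 / 3)) with hF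
  have cF : IsCompact F := isCompact_sq.inter_right (isClosed_Icc.preimage hφc)
  have hFO : ∀ w ∈ F, w ∉ O := by
    rintro w ⟨hw, hφw⟩ hwO
    have h1 : w ∈ X1 ∪ X2 := by rw [hun]; exact ⟨hwO, hw⟩
    rcases h1 with h1 | h1
    · have := hφ0 w (Or.inl h1)
      have h2 := hφw.1
      rw [this] at h2
      norm_num at h2
    · have := hφ1 w (Or.inl h1)
      have h2 := hφw.2
      rw [this] at h2
      norm_num at h2
  obtain ⟨Y1, Y2, d1, d2, hun', hinY, hB, hT⟩ := split_compact cF isClosed_sqB isClosed_sqT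
    (fun K hK1 hK2 ⟨b, hb1, hb2⟩ ⟨t, ht1, ht2⟩ => by
      refine hno' b hb2 t ht2 (joinedIn_of_preconnected hO hK2 ?_ hb1 ht1)
      intro x hx
      exact ⟨(hK1 hx).1, hFO x (hK1 hx)⟩)
  have hsub3 : Y1 ⊆ F := by rw [← hun']; exact subset_union_left
  have hsub4 : Y2 ⊆ F := by rw [← hun']; exact subset_union_right
  have hinY' : ∀ w, w ∈ Y1 → w ∈ Y2 → False := by
    intro w h1 h2
    have : w ∈ Y1 ∩ Y2 := ⟨h1, h2⟩
    rw [hinY] at this
    exact this
  obtain ⟨ψ, hψc, hψ0, hψ1⟩ := exists_sep (P := Y1 ∪ sqB) (Q := Y2 ∪ sqT)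
    (d1.union isClosed_sqB) (d2.union isClosed_sqT) ⟨0, Or.inr z2⟩ ⟨I, Or.inr z3⟩
    (by
      rw [eq_empty_iff_forall_notMem]
      rintro w ⟨h1 | h1, h2 | h2⟩
      · exact hinY' w h1 h2
      · exact hinY' w h1 (hT ⟨hsub3 h1, h2⟩)
      · exact hinY' w (hB ⟨hsub4 h2, h1⟩) h2
      · exact hBT w h1 h2)
  obtain ⟨w, hw, h1, h2⟩ := poincare_miranda (φ := fun w => φ w - 1 / 2)
    (ψ := fun w => ψ w - 1 / 2) ((hφc.sub continuous_const).continuousOn)
    ((hψc.sub continuous_const).continuousOn)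
    (fun w hw => by simp only [hφ0 w (Or.inr hw)]; norm_num)
    (fun w hw => by simp only [hφ1 w (Or.inr hw)]; norm_num)
    (fun w hw => by simp only [hψ0 w (Or.inr hw)]; norm_num)
    (fun w hw => by simp only [hψ1 w (Or.inr hw)]; norm_num)
  have hwF : w ∈ F := ⟨hw, by
    have : φ w = 1 / 2 := by linarith
    rw [mem_preimage, this]
    constructor <;> norm_num⟩
  rw [← hun'] at hwF
  rcases hwF with h3 | h3
  · have := hψ0 w (Or.inl h3)
    simp only [this] at h2
    norm_num at h2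
  · have := hψ1 w (Or.inl h3)
    simp only [this] at h2
    norm_num at h2

end Full
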